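import Pool.Agent.H19.KL.Stmts

/-!
# Concentration for a uniformly log-concave measure
-/

set_option autoImplicit false

open MeasureTheory Set
open scoped ContDiff

namespace Pool.Agent.H19.KL

open Pool.Agent.H84 Pool.Agent.H84.Sym Pool.Agent.H84.Sym.P2x Pool.Agent.H84.Sym.C29

/-- exponentials of Lipschitz functions have exponential growth -/
theorem con_gc {E : Type*} [NormedAddCommGroup E] {F : E → ℝ} {ℓ : ℝ} (hF : Continuous F)
    (hL : ∀ x y, |F x - F y| ≤ ℓ * ‖x - y‖) : GC (fun x => Real.exp (F x)) := by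
  refine ⟨Real.continuous_exp.comp hF, Real.exp (F 0), ℓ, fun x => ?_⟩
  rw [abs_of_pos (Real.exp_pos _), ← Real.exp_add]
  refine Real.exp_le_exp.2 ?_
  have h := hL x 0
  rw [sub_zero] at h
  have := (abs_le.1 h).2
  linarith

theorem con_thm (E : Type) [NormedAddCommGroup E] [InnerProductSpace ℝ E]
    [FiniteDimensional ℝ E] [MeasurableSpace E] [BorelSpace E] (h1 : PLMStmt E) : CONStmt E := by
  intro V κ C hV F ℓ hF hℓ hL
  have g1 : GC (fun x => Real.exp (F x)) := con_gc hF hL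
  have g2 : GC (fun x => Real.exp (-F x)) := con_gc (F := fun x => -F x) hF.neg
    (fun x y => by
      have : -F x - -F y = -(F x - F y) := by ring
      rw [this, abs_neg]
      exact hL x y)
  refine ⟨g1, g2, ?_⟩
  have hfin := isFinite_mu hV
  have key := h1 V κ C hV (fun x => Real.exp (F x)) (fun x => Real.exp (-F x))
    (fun _ => Real.exp (ℓ ^ 2 / κ / 2)) g1.1.measurable g2.1.measurable measurable_const
    (fun x => (Real.exp_pos _).le) (fun x => (Real.exp_pos _).le) (fun x => (Real.exp_pos _).le)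
    (g1.integrable hV) (g2.integrable hV) (integrable_const _) ?_
  · refine key.trans (le_of_eq ?_)
    rw [integral_const, smul_eq_mul, mul_pow, mul_comm, ← Real.exp_nat_mul]
    congr 2
    push_cast
    ring
  · intro x y
    show Real.exp (F x) * Real.exp (-F y) ≤ Real.exp (ℓ ^ 2 / κ / 2) ^ 2 *
      Real.exp (κ * ‖x - y‖ ^ 2 / 4)
    rw [← Real.exp_nat_mul, ← Real.exp_add, ← Real.exp_add]
    refine Real.exp_le_exp.2 ?_
    have h2 := (abs_le.1 (hL x y)).2
    have hκ := hV.pos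
    have h3 : ℓ * ‖x - y‖ ≤ κ * ‖x - y‖ ^ 2 / 4 + ℓ ^ 2 / κ := by
      have h4 : 0 ≤ (κ * ‖x - y‖ / 2 - ℓ) ^ 2 / κ := div_nonneg (sq_nonneg _) hκ.le
      have h5 : (κ * ‖x - y‖ / 2 - ℓ) ^ 2 / κ =
          κ * ‖x - y‖ ^ 2 / 4 + ℓ ^ 2 / κ - ℓ * ‖x - y‖ := by
        field_simp
        ring
      linarith
    push_cast
    linarith

end Pool.Agent.H19.KL
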