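import Pool.Agent.H19.KL.Stmts

/-!
# The Prekopa-Leindler inequality for a uniformly log-concave measure
-/

set_option autoImplicit false

open MeasureTheory Set
open scoped ContDiff

namespace Pool.Agent.H19.KL

open Pool.Agent.H84 Pool.Agent.H84.Sym Pool.Agent.H84.Sym.P2x Pool.Agent.H84.Sym.C29

/-- midpoint inequality for a uniformly convex potential -/
theorem plm_mid {E : Type*} [NormedAddCommGroup E] [InnerProductSpace ℝ E]
    {V : E → ℝ} {κ C : ℝ} (hV : Pot V κ C) (x y : E) :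
    2 * V ((2:ℝ)⁻¹ • (x + y)) + κ * ‖x - y‖ ^ 2 / 4 ≤ V x + V y := by
  set m : E := (2:ℝ)⁻¹ • (x + y) with hm
  have h1 : ∀ z : E, fderiv ℝ (fun z => V (z + m)) z = fderiv ℝ V (z + m) := fun z =>
    fderiv_comp_add_right m
  have h1' : fderiv ℝ (fun z => V (z + m)) = fun z => fderiv ℝ V (z + m) := funext h1
  have h2 : ∀ z : E, fderiv ℝ (fderiv ℝ (fun z => V (z + m))) z =
      fderiv ℝ (fderiv ℝ V) (z + m) := by
    intro z
    rw [h1']
    exact fderiv_comp_add_right m
  have hC : 0 ≤ C := by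
    have h3 := hV.grad 0
    rw [norm_zero, add_zero, mul_one] at h3
    exact (norm_nonneg _).trans h3
  have hU : Pot (fun z => V (z + m)) κ (C * (1 + ‖m‖)) := by
    refine ⟨hV.smooth.comp (contDiff_id.add contDiff_const), hV.pos, fun z v => ?_, fun z => ?_⟩
    · rw [h2]
      exact hV.hess _ _
    · rw [h1]
      refine (hV.grad _).trans ?_
      rw [mul_assoc]
      refine mul_le_mul_of_nonneg_left ?_ hC
      have h4 := norm_add_le z m
      nlinarith [norm_nonneg z, norm_nonneg m]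
  have e1 := pot_lower hU ((2:ℝ)⁻¹ • (x - y))
  have e2 := pot_lower hU (-((2:ℝ)⁻¹ • (x - y)))
  have e3 : (2:ℝ)⁻¹ • (x - y) + m = x := by
    rw [hm, ← smul_add]
    have : x - y + (x + y) = (2:ℝ) • x := by rw [two_smul]; abel
    rw [this, smul_smul, inv_mul_cancel₀ (by norm_num), one_smul]
  have e4 : -((2:ℝ)⁻¹ • (x - y)) + m = y := by
    rw [hm, ← smul_neg, ← smul_add]
    have : -(x - y) + (x + y) = (2:ℝ) • y := by rw [two_smul]; abel
    rw [this, smul_smul, inv_mul_cancel₀ (by norm_num), one_smul]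
  simp only [zero_add, map_neg, norm_neg, e3, e4] at e1 e2
  rw [norm_smul] at e1 e2
  have e5 : ‖(2:ℝ)⁻¹‖ = 1 / 2 := by norm_num
  rw [e5] at e1 e2
  have e6 : κ / 2 * (1 / 2 * ‖x - y‖) ^ 2 = κ * ‖x - y‖ ^ 2 / 8 := by ring
  rw [e6] at e1 e2
  linarith

theorem plm_thm (E : Type) [NormedAddCommGroup E] [InnerProductSpace ℝ E]
    [FiniteDimensional ℝ E] [MeasurableSpace E] [BorelSpace E] : PLMStmt E := by
  intro V κ C hV f g h hf hg hh hf0 hg0 hh0 hfi hgi hhi hfg
  have hc : Continuous V := hV.smooth.continuous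
  have hm : Measurable (fun x => Real.exp (-V x)) :=
    (Real.continuous_exp.comp hc.neg).measurable
  have key := pl_inner E (fun x => ENNReal.ofReal (f x * Real.exp (-V x)))
    (fun x => ENNReal.ofReal (g x * Real.exp (-V x)))
    (fun x => ENNReal.ofReal (h x * Real.exp (-V x)))
    (hf.mul hm).ennreal_ofReal (hg.mul hm).ennreal_ofReal (hh.mul hm).ennreal_ofReal ?_
  · rw [← ofReal_integral_eq_lintegral_ofReal ((integrable_mu_iff hc).1 hfi)
      (Filter.Eventually.of_forall fun x => mul_nonneg (hf0 x) (Real.exp_pos _).le),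
      ← ofReal_integral_eq_lintegral_ofReal ((integrable_mu_iff hc).1 hgi)
      (Filter.Eventually.of_forall fun x => mul_nonneg (hg0 x) (Real.exp_pos _).le),
      ← ofReal_integral_eq_lintegral_ofReal ((integrable_mu_iff hc).1 hhi)
      (Filter.Eventually.of_forall fun x => mul_nonneg (hh0 x) (Real.exp_pos _).le),
      ← integral_mu hc, ← integral_mu hc, ← integral_mu hc] at key
    have hf1 : 0 ≤ ∫ x, f x ∂(mu V) := integral_nonneg hf0
    have hh1 : 0 ≤ ∫ x, h x ∂(mu V) := integral_nonneg hh0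
    rw [← ENNReal.ofReal_mul hf1, ← ENNReal.ofReal_pow hh1] at key
    exact (ENNReal.ofReal_le_ofReal_iff (by positivity)).1 key
  · intro x y
    rw [← ENNReal.ofReal_mul (mul_nonneg (hf0 x) (Real.exp_pos _).le),
      ← ENNReal.ofReal_pow (mul_nonneg (hh0 _) (Real.exp_pos _).le)]
    refine ENNReal.ofReal_le_ofReal ?_
    have h1 := plm_mid hV x y
    set m : E := (2:ℝ)⁻¹ • (x + y) with hm
    have h2 : f x * Real.exp (-V x) * (g y * Real.exp (-V y)) =
        (f x * g y) * Real.exp (-(V x + V y)) := by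
      rw [neg_add, Real.exp_add]
      ring
    have h3 : (h m * Real.exp (-V m)) ^ 2 = (h m ^ 2 * Real.exp (κ * ‖x - y‖ ^ 2 / 4)) *
        Real.exp (-(2 * V m + κ * ‖x - y‖ ^ 2 / 4)) := by
      rw [mul_pow, mul_assoc (h m ^ 2), ← Real.exp_add, ← Real.exp_nat_mul]
      congr 2
      push_cast
      ring
    rw [h2, h3]
    refine mul_le_mul (hfg x y) (Real.exp_le_exp.2 (neg_le_neg h1)) (Real.exp_pos _).le ?_
    exact mul_nonneg (sq_nonneg _) (Real.exp_pos _).le

end Pool.Agent.H19.KL
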