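import Pool.Agent.H19.KL.Stmts

/-!
# A reverse Hoelder inequality for linear functionals
-/

set_option autoImplicit false

open MeasureTheory Set
open scoped ContDiff

namespace Pool.Agent.H19.KL

open Pool.Agent.H84 Pool.Agent.H84.Sym Pool.Agent.H84.Sym.P2x Pool.Agent.H84.Sym.C29

/-- powers of linear functionals have exponential growth -/
theorem rho_gc {E : Type*} [NormedAddCommGroup E] [InnerProductSpace ℝ E] (e : E) {r : ℝ}
    (hr : 0 ≤ r) : GC (fun x => |(inner ℝ e x : ℝ)| ^ r) := by
  refine ⟨?_, 1, r * ‖e‖, fun x => ?_⟩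
  · exact ((continuous_const.inner continuous_id).abs).rpow_const fun x => Or.inr hr
  · rw [one_mul, abs_of_nonneg (Real.rpow_nonneg (abs_nonneg _) _)]
    have h1 : |(inner ℝ e x : ℝ)| ≤ Real.exp (‖e‖ * ‖x‖) := by
      refine (abs_real_inner_le_norm e x).trans ?_
      have := Real.add_one_le_exp (‖e‖ * ‖x‖)
      linarith
    calc |(inner ℝ e x : ℝ)| ^ r ≤ (Real.exp (‖e‖ * ‖x‖)) ^ r :=
          Real.rpow_le_rpow (abs_nonneg _) h1 hr
      _ = Real.exp (r * ‖e‖ * ‖x‖) := by
          rw [← Real.exp_mul]
          congr 1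
          ring

theorem rho_thm (E : Type) [NormedAddCommGroup E] [InnerProductSpace ℝ E]
    [FiniteDimensional ℝ E] [MeasurableSpace E] [BorelSpace E] (h1 : PLMStmt E) : RHOStmt E := by
  intro V t C hV hprob e r hr
  have hr0 : 0 ≤ r := by linarith
  have hrp : 0 < r := by linarith
  have g1 := rho_gc e hr0
  have g2 := rho_gc e (r := 2 * r) (by linarith)
  refine ⟨g1, ?_⟩
  set Z : E → ℝ := fun x => |(inner ℝ e x : ℝ)| with hZ
  have hZ0 : ∀ x, 0 ≤ Z x := fun x => abs_nonneg _
  have hZc : Continuous Z := (continuous_const.inner continuous_id).abs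
  have i1 : Integrable (fun x => Z x ^ r) (mu V) := g1.integrable hV
  have i2 : Integrable (fun x => Z x ^ (2 * r)) (mu V) := g2.integrable hV
  have hsq : ∀ x, Z x ^ (2 * r) = (Z x ^ r) ^ 2 := by
    intro x
    rw [← Real.rpow_natCast, ← Real.rpow_mul (hZ0 x)]
    congr 1
    push_cast
    ring
  set M : ℝ := ∫ x, Z x ^ r ∂(mu V) with hM
  have hM0 : 0 ≤ M := integral_nonneg fun x => Real.rpow_nonneg (hZ0 x) _
  rcases eq_or_lt_of_le hM0 with hMz | hMp
  · -- `Z = 0` almost everywhere
    have h2 : (fun x => Z x ^ r) =ᵐ[mu V] 0 := by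
      rw [← integral_eq_zero_iff_of_nonneg (fun x => Real.rpow_nonneg (hZ0 x) _) i1]
      exact hMz.symm
    have h3 : ∫ x, Z x ^ (2 * r) ∂(mu V) = 0 := by
      rw [← integral_zero E ℝ (μ := mu V)]
      refine integral_congr_ae ?_
      filter_upwards [h2] with x hx
      rw [hsq, hx]
      simp
    show ∫ x, Z x ^ (2 * r) ∂(mu V) ≤ _
    rw [h3]
    positivity
  · set a : ℝ := 4 * M with ha
    have hap : 0 < a := by positivity
    set A : Set E := {x | 3 ^ r * a < Z x ^ r} with hA
    set B : Set E := {x | Z x ^ r ≤ a} with hB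
    have hAm : MeasurableSet A := measurableSet_lt measurable_const g1.1.measurable
    have hBm : MeasurableSet B := measurableSet_le g1.1.measurable measurable_const
    have h9 : (9 : ℝ) ^ r = (3 ^ r) ^ 2 := by
      rw [← Real.rpow_natCast, ← Real.rpow_mul (by norm_num), mul_comm, Real.rpow_mul (by norm_num)]
      norm_num
    have key := h1 V t C hV (A.indicator fun x => Z x ^ (2 * r)) (B.indicator fun _ => 1)
      (fun x => (3 * Z x) ^ r) (g2.1.measurable.indicator hAm) (measurable_const.indicator hBm)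
      ((hZc.const_mul 3 |>.rpow_const fun x => Or.inr hr0).measurable)
      (fun x => Set.indicator_nonneg (fun x _ => Real.rpow_nonneg (hZ0 x) _) x)
      (fun x => Set.indicator_nonneg (fun x _ => zero_le_one) x)
      (fun x => Real.rpow_nonneg (by have := hZ0 x; positivity) _)
      (i2.indicator hAm) ((integrable_const 1).indicator hBm) ?_ ?_
    · have k1 : ∫ x, (3 * Z x) ^ r ∂(mu V) = 3 ^ r * M := by
        rw [hM, ← integral_const_mul]
        refine integral_congr_ae (Filter.Eventually.of_forall fun x => ?_)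
        exact Real.mul_rpow (by norm_num) (hZ0 x)
      have k2 : ∫ x, B.indicator (fun _ => (1:ℝ)) x ∂(mu V) = (mu V).real B := by
        rw [integral_indicator hBm, setIntegral_const, smul_eq_mul, mul_one]
      have k3 : 3 / 4 ≤ (mu V).real B := by
        have h4 := mul_meas_ge_le_integral_of_nonneg
          (Filter.Eventually.of_forall fun x => Real.rpow_nonneg (hZ0 x) r) i1 a
        have h5 : (mu V).real Bᶜ ≤ (mu V).real {x | a ≤ Z x ^ r} := by
          refine measureReal_mono ?_ (measure_ne_top _ _)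
          intro x hx
          have : ¬ Z x ^ r ≤ a := hx
          exact (not_le.1 this).le
        have h6 : (mu V).real B + (mu V).real Bᶜ = 1 := by
          rw [measureReal_add_measureReal_compl hBm]
          simp
        have h7 : a * (mu V).real {x | a ≤ Z x ^ r} ≤ M := h4
        have h8 : (mu V).real {x | a ≤ Z x ^ r} ≤ 1 / 4 := by
          rw [ha] at h7
          have : 4 * M * (mu V).real {x | a ≤ Z x ^ r} ≤ 4 * M * (1 / 4) := by
            rw [← ha] at h7 ⊢
            linarith
          exact le_of_mul_le_mul_left this (by positivity)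
        linarith
      rw [k1, k2] at key
      have k4 : 0 ≤ ∫ x, A.indicator (fun x => Z x ^ (2 * r)) x ∂(mu V) :=
        integral_nonneg fun x => Set.indicator_nonneg (fun x _ => Real.rpow_nonneg (hZ0 x) _) x
      have k5 : ∫ x, A.indicator (fun x => Z x ^ (2 * r)) x ∂(mu V) ≤ 4 / 3 * (9 ^ r * M ^ 2) := by
        have k6 : (∫ x, A.indicator (fun x => Z x ^ (2 * r)) x ∂(mu V)) * (3 / 4) ≤
            9 ^ r * M ^ 2 := by
          refine (mul_le_mul_of_nonneg_left k3 k4).trans (key.trans (le_of_eq ?_))
          rw [h9]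
          ring
        linarith
      have k7 : ∫ x, Z x ^ (2 * r) ∂(mu V) ≤
          ∫ x, (A.indicator (fun x => Z x ^ (2 * r)) x + 9 ^ r * a ^ 2) ∂(mu V) := by
        refine integral_mono i2 ((i2.indicator hAm).add (integrable_const _)) fun x => ?_
        by_cases hx : x ∈ A
        · show Z x ^ (2 * r) ≤ A.indicator (fun x => Z x ^ (2 * r)) x + 9 ^ r * a ^ 2
          rw [Set.indicator_of_mem hx]
          have : (0:ℝ) ≤ 9 ^ r * a ^ 2 := by positivity
          linarith
        · show Z x ^ (2 * r) ≤ A.indicator (fun x => Z x ^ (2 * r)) x + 9 ^ r * a ^ 2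
          rw [Set.indicator_of_notMem hx, zero_add, hsq, h9, ← mul_pow]
          exact pow_le_pow_left₀ (Real.rpow_nonneg (hZ0 x) _) (not_lt.1 hx) 2
      rw [integral_add (i2.indicator hAm) (integrable_const _), integral_const] at k7
      have k8 : (mu V).real univ = 1 := by simp
      rw [k8, one_smul] at k7
      refine k7.trans ?_
      rw [ha]
      have : (0:ℝ) ≤ 9 ^ r * M ^ 2 := by positivity
      nlinarith
    · have : Integrable (fun x => 3 ^ r * Z x ^ r) (mu V) := i1.const_mul _
      refine this.congr (Filter.Eventually.of_forall fun x => ?_)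
      exact (Real.mul_rpow (by norm_num) (hZ0 x)).symm
    · intro x y
      by_cases hx : x ∈ A
      swap
      · rw [Set.indicator_of_notMem hx, zero_mul]
        positivity
      by_cases hy : y ∈ B
      swap
      · rw [Set.indicator_of_notMem hy, mul_zero]
        positivity
      rw [Set.indicator_of_mem hx, Set.indicator_of_mem hy, mul_one]
      have e1 : (3 * Z y) ^ r < Z x ^ r := by
        rw [Real.mul_rpow (by norm_num) (hZ0 y)]
        exact (mul_le_mul_of_nonneg_left hy (by positivity)).trans_lt hx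
      have e2 : 3 * Z y < Z x := by
        by_contra hcon
        exact absurd e1 (not_lt.2 (Real.rpow_le_rpow (hZ0 x) (not_lt.1 hcon) hr0))
      have e3 : Z x - Z y ≤ 2 * Z ((2:ℝ)⁻¹ • (x + y)) := by
        have e4 : Z ((2:ℝ)⁻¹ • (x + y)) = (2:ℝ)⁻¹ * |(inner ℝ e x : ℝ) + inner ℝ e y| := by
          simp only [hZ]
          rw [real_inner_smul_right, inner_add_right, abs_mul, abs_of_pos (by norm_num)]
        rw [e4]
        have e5 := abs_sub_abs_le_abs_sub (inner ℝ e x : ℝ) (-(inner ℝ e y))
        rw [abs_neg, sub_neg_eq_add] at e5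
        simp only [hZ]
        linarith
      have e6 : Z x ≤ 3 * Z ((2:ℝ)⁻¹ • (x + y)) := by linarith
      calc Z x ^ (2 * r) = (Z x ^ r) ^ 2 := hsq x
        _ ≤ ((3 * Z ((2:ℝ)⁻¹ • (x + y))) ^ r) ^ 2 :=
            pow_le_pow_left₀ (Real.rpow_nonneg (hZ0 x) _) (Real.rpow_le_rpow (hZ0 x) e6 hr0) 2
        _ ≤ _ := by
            refine le_mul_of_one_le_right (sq_nonneg _) ?_
            refine Real.one_le_exp ?_
            have := hV.pos
            positivity

end Pool.Agent.H19.KL
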